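import Mathlib

set_option autoImplicit false
set_option maxHeartbeats 400000
set_option linter.unusedSectionVars false

namespace Pool.Agent.H.MP_bf2d93_gt

open Set Metric

variable {k : ℕ}

lemma cover (x : Fin k → ℝ) {r : ℝ} (hr : 0 < r) {M : ℕ} (hM : 0 < M) :
    ∃ c : (Fin k → Fin M) → Fin k → ℝ, ∀ y ∈ closedBall x (M * r), ∃ v, y ∈ closedBall (c v) r := by
  refine ⟨fun v i => x i - M * r + (2 * (v i : ℝ) + 1) * r, fun y hy => ?_⟩
  rw [mem_closedBall, dist_pi_le_iff (by positivity)] at hy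
  have : ∀ i, ∃ j : Fin M, dist (y i) (x i - M * r + (2 * (j : ℝ) + 1) * r) ≤ r := fun i => by
    have h := abs_le.1 (hy i)
    set t := (y i - x i + M * r) / (2 * r) with ht
    have e : t * (2 * r) = y i - x i + M * r := by rw [ht]; field_simp
    have t0 : 0 ≤ t := div_nonneg (by linarith) (by positivity)
    by_cases c : ⌊t⌋₊ < M
    · refine ⟨⟨_, c⟩, abs_le.2 ⟨?_, ?_⟩⟩ <;>
        nlinarith [Nat.floor_le t0, Nat.lt_floor_add_one t]
    · have a : (M : ℝ) ≤ t := (Nat.le_floor_iff t0).1 (not_lt.1 c)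
      refine ⟨⟨M - 1, by omega⟩, abs_le.2 ⟨?_, ?_⟩⟩ <;> simp only [Nat.cast_pred hM] <;> nlinarith
  choose v hv using this
  exact ⟨v, (dist_pi_le_iff hr.le).2 hv⟩

open Classical in
noncomputable def cnt (q : ℕ → Fin k → ℝ) (T : ℕ) (x : Fin k → ℝ) (r : ℝ) : ℕ :=
  ((Finset.Ico T (2 * T)).filter fun i => q i ∈ closedBall x r).card

lemma cnt_le (q : ℕ → Fin k → ℝ) (T : ℕ) (x : Fin k → ℝ) {r R : ℝ} {ι : Type} (s : Finset ι)
    (c : ι → Fin k → ℝ) {F : ℕ} (hF : ∀ x, cnt q T x r ≤ F)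
    (h : ∀ i ≥ T, q i ∈ closedBall x R → ∃ v ∈ s, q i ∈ closedBall (c v) r) :
    cnt q T x R ≤ s.card * F := by
  classical
  refine le_trans (Finset.card_le_card (t := s.biUnion fun v =>
    (Finset.Ico T (2 * T)).filter fun i => q i ∈ closedBall (c v) r) fun i hi => ?_)
    (Finset.card_biUnion_le_card_mul _ _ _ fun v _ => by
      have := hF (c v)
      unfold cnt at this
      convert this)
  simp only [Finset.mem_filter, Finset.mem_biUnion] at hi ⊢
  obtain ⟨v, a, b⟩ := h i (Finset.mem_Ico.1 hi.1).1 hi.2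
  exact ⟨v, a, hi.1, b⟩

lemma step0 (q : ℕ → Fin k → ℝ) (T : ℕ) {r : ℝ} (hr : 0 < r) {M F : ℕ} (hM : 0 < M)
    (hF : ∀ x, cnt q T x r ≤ F) (x : Fin k → ℝ) : cnt q T x (M * r) ≤ M ^ k * F := by
  obtain ⟨c, hc⟩ := cover x hr hM
  simpa using cnt_le q T x Finset.univ c hF fun i _ hi => by simpa using hc _ hi

lemma ivt (d : ℕ → ℝ) {R b : ℝ} {a n : ℕ} (hs : ∀ i, |d (i + 1) - d i| ≤ b) (han : a ≤ n)
    (h : (d a < R ∧ R ≤ d n) ∨ (d n < R ∧ R ≤ d a)) :
    ∃ i, a ≤ i ∧ i ≤ n ∧ |d i - R| ≤ b := by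
  induction n, han using Nat.le_induction with
  | base => rcases h with h | h <;> linarith [h.1, h.2]
  | succ n han ih =>
    have := abs_le.1 (hs n)
    by_cases c : (d a < R ∧ R ≤ d n) ∨ (d n < R ∧ R ≤ d a)
    · obtain ⟨i, a1, a2, a3⟩ := ih c
      exact ⟨i, a1, by omega, a3⟩
    · push Not at c
      refine ⟨n + 1, by omega, le_rfl, abs_le.2 ?_⟩
      rcases h with h | h
      · constructor <;> linarith [h.2, c.1 h.1]
      · have : R ≤ d n := by
          by_contra e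
          linarith [c.2 (not_le.1 e), h.2]
        constructor <;> linarith [h.1]

section
variable {q : ℕ → Fin k → ℝ} {g : ℕ → ℝ} {A B : ℝ} (A0 : 0 < A) (g1 : g 1 = 1)
  (gm : ∀ a b, 1 ≤ a → a ≤ b → g a ≤ g b) (gu : ∀ C, ∃ n ≥ 1, C < g n)
  (hq : ∀ i j, i < j → A * g (j - i) ≤ dist (q i) (q j) ∧ dist (q i) (q j) ≤ B * g (j - i))
include A0 g1 hq

lemma AB : A ≤ B := by
  have := hq 0 1 one_pos
  simp only [Nat.sub_zero, g1, mul_one] at this
  linarith [this.1, this.2]

include gm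

lemma base (T : ℕ) (x : Fin k → ℝ) : cnt q T x (A / 3) ≤ 1 := by
  have : ∀ i j, i < j → q i ∈ closedBall x (A / 3) → q j ∈ closedBall x (A / 3) → False := by
    intro i j h a b
    have c := gm 1 (j - i) le_rfl (by omega)
    nlinarith [(hq i j h).1, dist_triangle_right (q i) (q j) x, mem_closedBall.1 a,
      mem_closedBall.1 b]
  refine Finset.card_le_one.2 fun i hi j hj => ?_
  simp only [Finset.mem_filter] at hi hj
  rcases lt_trichotomy i j with h | h | h
  exacts [(this i j h hi.2 hj.2).elim, h, (this j i h hj.2 hi.2).elim]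

lemma full {T : ℕ} (hT : 1 ≤ T) {R : ℝ} (hR : B * g T ≤ R) : T ≤ cnt q T (q T) R := by
  classical
  have B0 := A0.trans_le (AB A0 g1 hq)
  rw [cnt, Finset.filter_true_of_mem fun i hi => ?_]
  · simp; omega
  obtain ⟨a, b⟩ := Finset.mem_Ico.1 hi
  have := gm 1 T le_rfl hT
  rcases a.eq_or_lt with rfl | a
  · exact mem_closedBall_self (by nlinarith)
  · rw [mem_closedBall, dist_comm]
    nlinarith [(hq T i a).2, gm (i - T) T (by omega) (by omega)]

lemma pack {T : ℕ} (hT : 1 ≤ T) : (T : ℝ) ≤ ((3 * B / A + 1) * g T) ^ k := by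
  have B0 := A0.trans_le (AB A0 g1 hq)
  have g0 := gm 1 T le_rfl hT
  have p : 0 < 3 * B / A * g T := by rw [g1] at g0; positivity
  have h := (full A0 g1 gm hq hT (R := (⌈3 * B / A * g T⌉₊ : ℕ) * (A / 3)) (by
    refine le_trans (le_of_eq ?_) (mul_le_mul_of_nonneg_right (Nat.le_ceil _) (by positivity))
    field_simp)).trans (step0 q T (by positivity) (Nat.ceil_pos.2 p) (base A0 g1 gm hq T) _)
  rw [mul_one] at h
  refine le_trans (by exact_mod_cast h) (pow_le_pow_left₀ (Nat.cast_nonneg _) ?_ k)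
  linarith [Nat.ceil_lt_add_one p.le]

include gu

lemma hole (hk : 2 ≤ k) {T : ℕ} (hT : 1 ≤ T) (x : Fin k → ℝ) {R : ℝ} (h1 : B ≤ A / (8 * B) * R)
    (h2 : 2 * R ≤ A * g T) : ∃ z ∈ closedBall x R, ∀ i ≥ T, A / (8 * B) * R < dist z (q i) := by
  have ab := AB A0 g1 hq
  have B0 := A0.trans_le ab
  set η := A / (8 * B) with hη
  have η0 : 0 < η := by positivity
  have η1 : η ≤ 1 / 8 := by rw [hη, div_le_div_iff₀ (by positivity) (by norm_num)]; linarith
  have η2 : η * B = A / 8 := by rw [hη]; field_simp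
  have R0 : 0 < R := by by_contra c; nlinarith
  by_contra! H
  obtain ⟨j, j1, j2⟩ := H x (mem_closedBall_self R0.le)
  have hs : ∀ i, |dist x (q (i + 1)) - dist x (q i)| ≤ η * R := fun i => by
    have := (hq i (i + 1) (by omega)).2
    simp only [Nat.add_sub_cancel_left, g1, mul_one] at this
    have a := abs_dist_sub_le (q (i + 1)) (q i) x
    rw [dist_comm (q _) x, dist_comm (q _) x, dist_comm (q _) (q _)] at a
    linarith
  have pr : ∀ i, |dist x (q i) - R| ≤ η * R → i ≠ j ∧ ∃ y ∈ sphere x R, dist y (q i) < 2 * η * R := by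
    intro i hi
    have a := abs_le.1 hi
    have d0 : 0 < dist x (q i) := by nlinarith
    refine ⟨by rintro rfl; nlinarith, x + (R / dist x (q i)) • (q i - x), ?_, ?_⟩
    · rw [mem_sphere_iff_norm, add_sub_cancel_left, norm_smul, ← dist_eq_norm, dist_comm (q i),
        Real.norm_of_nonneg (by positivity), div_mul_cancel₀ _ d0.ne']
    · have : x + (R / dist x (q i)) • (q i - x) - q i = (R / dist x (q i) - 1) • (q i - x) := by
        rw [sub_smul, one_smul]; abel
      rw [dist_eq_norm, this, norm_smul, ← dist_eq_norm (q i), dist_comm (q i), Real.norm_eq_abs,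
        ← abs_of_pos d0, ← abs_mul, abs_of_pos d0, sub_mul, div_mul_cancel₀ _ d0.ne', one_mul,
        abs_sub_comm]
      nlinarith
  have c := (isConnected_sphere (E := Fin k → ℝ) (by
    rw [rank_fun', Fintype.card_fin]; exact_mod_cast hk) x R0.le).2
    (⋃ i ∈ Iio j, ball (q i) (2 * η * R)) (⋃ i ∈ Ioi j, ball (q i) (2 * η * R))
    (isOpen_biUnion fun _ _ => isOpen_ball) (isOpen_biUnion fun _ _ => isOpen_ball) ?_ ?_ ?_
  · obtain ⟨y, y1, y2, y3⟩ := c
    simp only [mem_iUnion, mem_Iio, mem_Ioi, mem_ball] at y2 y3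
    obtain ⟨a, a1, a2⟩ := y2
    obtain ⟨b, b1, b2⟩ := y3
    have c1 := (hq a b (by omega)).1
    have c2 := (hq a j a1).2
    have c3 := gm (j - a) (b - a) (by omega) (by omega)
    have c4 := dist_triangle_left (q a) (q b) y
    have c5 := dist_triangle4 y (q a) (q j) x
    rw [mem_sphere.1 y1, dist_comm (q j)] at c5
    have c6 : A * g (j - a) < 4 * η * R := by nlinarith
    have c7 : R - 3 * η * R < B * g (j - a) := by linarith
    nlinarith [mul_lt_mul_of_pos_left c6 B0, mul_lt_mul_of_pos_left c7 A0, mul_pos A0 R0]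
  · intro y hy
    obtain ⟨i, -, i2⟩ := H y (sphere_subset_closedBall hy)
    have m : y ∈ ball (q i) (2 * η * R) := by rw [mem_ball]; nlinarith
    rcases lt_trichotomy i j with h | rfl | h
    · exact .inl (mem_biUnion h m)
    · have := dist_triangle_right y x (q i)
      rw [mem_sphere.1 hy] at this
      nlinarith
    · exact .inr (mem_biUnion h m)
  · obtain ⟨i, -, i2, i3⟩ := ivt (fun i => dist x (q i)) (R := R) hs (Nat.zero_le j) (.inr ⟨by
      nlinarith, by
        have a := (hq 0 j (by omega)).1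
        have b := dist_triangle_left (q 0) (q j) x
        have := gm T j hT j1
        rw [Nat.sub_zero] at a
        nlinarith⟩)
    obtain ⟨a, y, y1, y2⟩ := pr i i3
    exact ⟨y, y1, mem_biUnion (lt_of_le_of_ne i2 a) y2⟩
  · obtain ⟨n, n1, n2⟩ := gu (2 * R / A)
    obtain ⟨i, i1, -, i3⟩ := ivt (fun i => dist x (q i)) (R := R) hs (Nat.le_add_right j n)
      (.inl ⟨by nlinarith, by
        have a := (hq j (j + n) (by omega)).1
        have b := dist_triangle_left (q j) (q (j + n)) x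
        rw [Nat.add_sub_cancel_left] at a
        rw [div_lt_iff₀ A0] at n2
        nlinarith⟩)
    obtain ⟨a, y, y1, y2⟩ := pr i i3
    exact ⟨y, y1, mem_biUnion (lt_of_le_of_ne i1 a.symm) y2⟩

lemma step1 (hk : 2 ≤ k) {T : ℕ} (hT : 1 ≤ T) {M : ℕ} (hM : 24 * B ^ 2 / A ^ 2 ≤ M) (s : ℕ)
    (h2 : 2 * (M ^ s * (A / 3)) ≤ A * g T) (x : Fin k → ℝ) :
    cnt q T x (M ^ s * (A / 3)) ≤ (M ^ k - 1) ^ s := by
  have ab := AB A0 g1 hq
  have B0 := A0.trans_le ab
  rw [div_le_iff₀ (by positivity)] at hM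
  have M1 : (1 : ℝ) ≤ M := by by_contra c; nlinarith [mul_pos A0 A0]
  induction s generalizing x with
  | zero => simpa using base A0 g1 gm hq T x
  | succ s ih =>
    have p1 : (1 : ℝ) ≤ M ^ s := one_le_pow₀ M1
    have e : (M : ℝ) ^ (s + 1) * (A / 3) = M * (M ^ s * (A / 3)) := by ring
    rw [e] at h2 ⊢
    set r := (M : ℝ) ^ s * (A / 3)
    have r1 : A / 3 ≤ r := le_mul_of_one_le_left (by positivity) p1
    have r0 : 0 < r := by positivity
    obtain ⟨c, hc⟩ := cover x r0 (M := M) (by exact_mod_cast M1)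
    obtain ⟨z, z1, z2⟩ := hole A0 g1 gm gu hq hk hT x (R := M * r) (by
      rw [div_mul_eq_mul_div, le_div_iff₀ (by positivity)]
      nlinarith [mul_le_mul_of_nonneg_left r1 (mul_pos A0 (zero_lt_one.trans_le M1)).le]) h2
    obtain ⟨v, hv⟩ := hc z z1
    have := cnt_le q T x (Finset.univ.erase v) c (ih (by nlinarith)) (R := M * r) fun i i1 i2 => by
      obtain ⟨w, hw⟩ := hc _ i2
      refine ⟨w, Finset.mem_erase.2 ⟨?_, Finset.mem_univ _⟩, hw⟩
      rintro rfl
      have a := z2 i i1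
      have b := dist_triangle_right z (q i) (c w)
      have d : 2 * r ≤ A / (8 * B) * (M * r) := by
        rw [div_mul_eq_mul_div, le_div_iff₀ (by positivity)]
        have : 16 * B ≤ A * M := le_of_mul_le_mul_left (by nlinarith) A0
        nlinarith
      linarith [mem_closedBall.1 hv, mem_closedBall.1 hw]
    simpa [pow_succ, mul_comm] using this

end

lemma nec (hk : 1 ≤ k) {A B : ℝ} (A0 : 0 < A) (ab : A ≤ B) : ∃ α c : ℝ, 0 < c ∧ 0 < α ∧
    (1 / (k : ℝ) < α ∨ α = 1) ∧ ∀ (q : ℕ → Fin k → ℝ) (g : ℕ → ℝ), g 1 = 1 →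
    (∀ a b, 1 ≤ a → a ≤ b → g a ≤ g b) → (∀ C, ∃ n ≥ 1, C < g n) →
    (∀ i j, i < j → A * g (j - i) ≤ dist (q i) (q j) ∧ dist (q i) (q j) ≤ B * g (j - i)) →
    ∀ T : ℕ, 1 ≤ T → c * (T : ℝ) ^ α ≤ g T := by
  have B0 := A0.trans_le ab
  rcases hk.eq_or_lt with rfl | hk
  · refine ⟨1, 1 / (3 * B / A + 1), by positivity, one_pos, .inr rfl, fun q g g1 gm _ hq T hT => ?_⟩
    have := pack A0 g1 gm hq hT
    rw [Real.rpow_one, div_mul_eq_mul_div, div_le_iff₀ (by positivity)]
    linarith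
  obtain ⟨M, hM⟩ := exists_nat_ge (24 * B ^ 2 / A ^ 2)
  have M2 : (2 : ℝ) ≤ M := le_trans (by rw [le_div_iff₀ (by positivity)]; nlinarith) hM
  have M3 : 2 ≤ M := by exact_mod_cast M2
  obtain ⟨D, hD⟩ := exists_nat_gt (2 * B * M / A)
  have D0 : (0 : ℝ) < D := lt_trans (by positivity) hD
  have m4 : 4 ≤ M ^ k := (Nat.pow_le_pow_left M3 2).trans (Nat.pow_le_pow_right (by omega) hk)
  set W : ℝ := ((M ^ k - 1 : ℕ) : ℝ) with hW
  have W1 : 1 < W := by rw [hW]; exact_mod_cast (by omega : 1 < M ^ k - 1)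
  have W2 : W < M ^ k := by rw [hW]; exact_mod_cast (by omega : M ^ k - 1 < M ^ k)
  have l1 := Real.log_pos W1
  have l2 := Real.log_lt_log (by linarith) W2
  rw [Real.log_pow] at l2
  set α := Real.log M / Real.log W with hα
  have α0 : 0 < α := div_pos (Real.log_pos (by linarith)) l1
  refine ⟨α, 2 / 3 / ((D : ℝ) ^ k) ^ α, by positivity, α0, .inl (by
    rw [div_lt_div_iff₀ (by positivity) l1]; linarith), fun q g g1 gm gu hq T hT => ?_⟩
  have g0 := gm 1 T le_rfl hT
  obtain ⟨s, s1, s2⟩ := exists_nat_pow_near (x := 3 / 2 * g T) (y := (M : ℝ)) (by linarith)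
    (by linarith)
  have h := (full A0 g1 gm hq hT (R := D * (M ^ s * (A / 3))) (by
    rw [div_lt_iff₀ A0] at hD
    rw [pow_succ] at s2
    have : (0 : ℝ) < M ^ s := by positivity
    nlinarith [mul_lt_mul_of_pos_left s2 B0, mul_lt_mul_of_pos_left hD this])).trans
    (step0 q T (by positivity) (by exact_mod_cast D0)
      (step1 A0 g1 gm gu hq hk hT hM s (by nlinarith)) _)
  have h' : (T : ℝ) ≤ D ^ k * W ^ s := by rw [hW]; exact_mod_cast h
  have e : (W ^ s) ^ α = M ^ s := by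
    rw [← Real.rpow_natCast, ← Real.rpow_mul (by linarith), mul_comm, Real.rpow_mul (by linarith),
      Real.rpow_def_of_pos (by linarith) α, hα, mul_div_cancel₀ _ l1.ne',
      Real.exp_log (by linarith), Real.rpow_natCast]
  have := Real.rpow_le_rpow (Nat.cast_nonneg _) h' α0.le
  rw [Real.mul_rpow (by positivity) (by positivity), e] at this
  rw [div_mul_eq_mul_div, div_le_iff₀ (by positivity)]
  nlinarith [mul_le_mul_of_nonneg_left s1 (by positivity : 0 ≤ ((D : ℝ) ^ k) ^ α)]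

end Pool.Agent.H.MP_bf2d93_gt
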