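import Mathlib

set_option autoImplicit false
set_option maxHeartbeats 400000
set_option linter.unusedSectionVars false

namespace Pool.Agent.H.MP_bf2d93_gt

open Set

variable {k : ℕ}

structure Box (L r : ℕ) (w : ℕ → Fin k → ℤ) : Prop where
  z : ∀ c, w 0 c = 0
  e : ∀ c, w L c = r
  st : ∀ t < L, ∀ c, w (t + 1) c = w t c + 1 ∨ w (t + 1) c = w t c - 1
  bd : ∀ t ≤ L, ∀ c, 0 ≤ w t c ∧ w t c ≤ r
  iv : ∀ t ≤ L, ∀ u ≤ L, w t = w u → t = u
  ic : ∀ t < L, ∀ u < L, w t + w (t + 1) = w u + w (u + 1) → t = u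

lemma box_line (hk : 1 ≤ k) (L : ℕ) : Box (k := k) L L fun t _ => t :=
  ⟨fun _ => rfl, fun _ => rfl, fun t _ _ => .inl (by simp), fun t h _ => by simpa using h,
    fun t _ u _ h => by simpa using congrFun h ⟨0, hk⟩,
    fun t _ u _ h => by have := congrFun h ⟨0, hk⟩; simp at this; omega⟩

lemma box_succ {b s : ℕ} (hb : Odd b) (hs : 0 < s) {w : ℕ → Fin k → ℤ} (h : Box (2 * b) (2 * s) w) :
    ∃ w' : ℕ → Fin (k + 1) → ℤ, Box (2 * (b * s)) (2 * s) w' := by
  let F : ℕ → ℕ → Fin (k + 1) → ℤ := fun i j =>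
    Fin.cons (if Even i then (j : ℤ) else 2 * s - j) (w (2 * i + j % 2))
  let w' : ℕ → Fin (k + 1) → ℤ := fun n => F (n / (2 * s)) (n % (2 * s))
  have s0 : 0 < 2 * s := by omega
  have d : ∀ n, ∃ i j, j < 2 * s ∧ n = 2 * s * i + j ∧ w' n = F i j ∧
      w' (n + 1) = if j + 1 < 2 * s then F i (j + 1) else F (i + 1) 0 := fun n => by
    refine ⟨n / (2 * s), n % (2 * s), Nat.mod_lt _ s0, (Nat.div_add_mod _ _).symm, rfl, ?_⟩
    have := Nat.mod_lt n s0
    have e := Nat.div_add_mod n (2 * s)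
    split_ifs with c
    · obtain ⟨a1, a2⟩ := (Nat.div_mod_unique s0 (a := n + 1) (d := n / (2 * s))
        (c := n % (2 * s) + 1)).2 ⟨by omega, c⟩
      simp only [w', a1, a2]
    · obtain ⟨a1, a2⟩ := (Nat.div_mod_unique s0 (a := n + 1) (d := n / (2 * s) + 1)
        (c := 0)).2 ⟨by rw [mul_add]; omega, s0⟩
      simp only [w', a1, a2]
  have lt : ∀ {n i j}, n = 2 * s * i + j → n < 2 * (b * s) → i < b := fun {n i j} e a => by
    by_contra c
    nlinarith [Nat.mul_le_mul_left (2 * s) (not_lt.1 c)]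
  have le : ∀ {n i j}, j < 2 * s → n = 2 * s * i + j → n ≤ 2 * (b * s) → 2 * i + j % 2 ≤ 2 * b := by
    intro n i j a e c
    rcases c.eq_or_lt with c | c
    · obtain ⟨a1, a2⟩ := (Nat.div_mod_unique s0 (a := n) (d := i) (c := j)).2 ⟨by omega, a⟩
      obtain ⟨a3, a4⟩ := (Nat.div_mod_unique s0 (a := n) (d := b) (c := 0)).2
        ⟨by rw [c]; ring, s0⟩
      omega
    · have := lt e c
      omega
  refine ⟨w', fun c => ?_, fun c => ?_, fun t ht c => ?_, fun t ht c => ?_,
    fun t ht u hu e => ?_, fun t ht u hu e => ?_⟩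
  · refine Fin.cases ?_ (fun c => ?_) c <;> simp [w', F, h.z]
  · obtain ⟨a3, a4⟩ := (Nat.div_mod_unique s0 (a := 2 * (b * s)) (d := b) (c := 0)).2
      ⟨by ring, s0⟩
    refine Fin.cases ?_ (fun c => ?_) c <;> simp [w', F, a3, h.e, Nat.not_even_iff_odd.2 hb]
  · obtain ⟨i, j, a1, a2, a3, a4⟩ := d t
    have a5 := lt a2 ht
    rw [a3, a4]
    refine Fin.cases ?_ (fun c => ?_) c
    · split_ifs with c <;> simp only [F, Fin.cons_zero, Nat.even_add_one] <;> split_ifs <;>
        push_cast <;> omega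
    · split_ifs with c' <;> simp only [F, Fin.cons_succ]
      · have := h.st (2 * i) (by omega) c
        rcases Nat.mod_two_eq_zero_or_one j with e | e
        · rwa [e, show (j + 1) % 2 = 1 by omega]
        · rw [e, show (j + 1) % 2 = 0 by omega, add_zero]; omega
      · rw [show j % 2 = 1 by omega]
        exact h.st (2 * i + 1) (by omega) c
  · obtain ⟨i, j, a1, a2, a3, -⟩ := d t
    rw [a3]
    refine Fin.cases ?_ (fun c => ?_) c
    · simp only [F, Fin.cons_zero]; split_ifs <;> push_cast <;> omega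
    · exact h.bd _ (le a1 a2 ht) c
  · obtain ⟨i, j, a1, a2, a3, -⟩ := d t
    obtain ⟨i', j', b1, b2, b3, -⟩ := d u
    rw [a3, b3] at e
    obtain ⟨e1, e2⟩ := Fin.cons_injective2.eq_iff.1 e
    have := h.iv _ (le a1 a2 ht) _ (le b1 b2 hu) e2
    obtain rfl : i = i' := by omega
    split_ifs at e1 <;> omega
  · have q : ∀ t < 2 * (b * s), ∃ i j, j < 2 * s ∧ t = 2 * s * i + j ∧ i < b ∧
        (w' t + w' (t + 1)) 0 = (if Even i then 2 * (j : ℤ) + 1 else 4 * s - 2 * j - 1) ∧
        ∃ m, (m = 2 * i ∨ m = 2 * i + 1) ∧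
          ∀ c, (w' t + w' (t + 1)) (Fin.succ c) = (w m + w (m + 1)) c := fun t ht => by
      obtain ⟨i, j, a1, a2, a3, a4⟩ := d t
      refine ⟨i, j, a1, a2, lt a2 ht, ?_, ?_⟩
      · rw [a3, a4]
        split_ifs <;> simp only [F, Fin.cons_zero, Nat.even_add_one, Pi.add_apply] <;>
          split_ifs <;> push_cast <;> omega
      · rw [a3, a4]
        split_ifs with c'
        · refine ⟨_, .inl rfl, fun c => ?_⟩
          simp only [F, Fin.cons_succ, Pi.add_apply]
          rcases Nat.mod_two_eq_zero_or_one j with e | e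
          · rw [e, show (j + 1) % 2 = 1 by omega, add_zero]
          · rw [e, show (j + 1) % 2 = 0 by omega, add_zero, add_comm]
        · refine ⟨_, .inr rfl, fun c => ?_⟩
          simp only [F, Fin.cons_succ, Pi.add_apply]
          rw [show j % 2 = 1 by omega]
          rfl
    obtain ⟨i, j, a1, a2, a3, a4, m, a5, a6⟩ := q t ht
    obtain ⟨i', j', b1, b2, b3, b4, m', b5, b6⟩ := q u hu
    have := h.ic m (by omega) m' (by omega) (funext fun c => by rw [← a6, ← b6, e])
    obtain rfl : i = i' := by omega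
    rw [e, b4] at a4
    split_ifs at a4 <;> omega

lemma box_ex {s : ℕ} (hs : Odd s) (k : ℕ) :
    ∃ w : ℕ → Fin (k + 1) → ℤ, Box (2 * s ^ (k + 1)) (2 * s) w := by
  induction k with
  | zero => simpa using ⟨_, box_line le_rfl (2 * s)⟩
  | succ k ih =>
    obtain ⟨w, h⟩ := ih
    exact box_succ hs.pow hs.pos h

structure Gen (L r : ℕ) (w : ℕ → Fin k → ℤ) : Prop extends Box L r w where
  int : ∀ t, 0 < t → t < L → ∀ c, 1 ≤ w t c ∧ w t c + 1 ≤ r

lemma gen_line (hk : 1 ≤ k) (L : ℕ) : Gen (k := k) L L fun t _ => t :=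
  ⟨box_line hk L, fun t a b _ => by omega⟩

lemma gen_of (hk : 1 ≤ k) {L r : ℕ} {w : ℕ → Fin k → ℤ} (h : Box L r w) :
    ∃ g : ℕ → Fin k → ℤ, Gen (L + 2) (r + 2) g := by
  let g : ℕ → Fin k → ℤ := fun t c => if t = 0 then 0 else if t = L + 2 then r + 2 else
    w (t - 1) c + 1
  have d : ∀ t ≤ L + 2, (t = 0 ∧ ∀ c, g t c = 0) ∨ (t = L + 2 ∧ ∀ c, g t c = r + 2) ∨
      (0 < t ∧ t < L + 2 ∧ ∀ c, g t c = w (t - 1) c + 1 ∧ 0 ≤ w (t - 1) c ∧ w (t - 1) c ≤ r) := by
    intro t ht
    by_cases a : t = 0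
    · simp [g, a]
    by_cases b : t = L + 2
    · simp [g, b]
    exact .inr (.inr ⟨by omega, by omega, fun c => ⟨by simp [g, a, b], h.bd _ (by omega) c⟩⟩)
  have z := h.z
  have e := h.e
  let o : Fin k := ⟨0, hk⟩
  refine ⟨g, ⟨fun c => by simp [g], fun c => by simp [g], fun t ht c => ?_, fun t ht c => ?_,
    fun t ht u hu e => ?_, fun t ht u hu e' => ?_⟩, fun t a b c => ?_⟩
  · rcases d t ht.le with ⟨rfl, a⟩ | a | ⟨a1, -, a⟩
    · simp [g, z]
    · omega
    rcases d (t + 1) ht with b | ⟨b1, b⟩ | ⟨-, b1, b⟩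
    · omega
    · rw [b, (a c).1, show t - 1 = L by omega, e]; omega
    · have := h.st (t - 1) (by omega) c
      rw [show t - 1 + 1 = t + 1 - 1 by omega] at this
      rw [(a c).1, (b c).1]; omega
  · rcases d t ht with a | a | ⟨-, -, a⟩
    · rw [a.2]; omega
    · rw [a.2]; omega
    · have := a c; omega
  · have := congrFun e o
    rcases d t ht with a | a | ⟨a1, a2, a⟩ <;> rcases d u hu with b | b | ⟨b1, b2, b⟩
    · omega
    · have := a.2 o; have := b.2 o; omega
    · have := a.2 o; have := b o; omega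
    · have := a.2 o; have := b.2 o; omega
    · omega
    · have := a.2 o; have := b o; omega
    · have := a o; have := b.2 o; omega
    · have := a o; have := b.2 o; omega
    · have := h.iv (t - 1) (by omega) (u - 1) (by omega) (funext fun c => by
        have := congrFun e c; have := a c; have := b c; omega)
      omega
  · have q : ∀ t < L + 2, (t = 0 ∧ (g t + g (t + 1)) o = 1) ∨
        (t = L + 1 ∧ (g t + g (t + 1)) o = 2 * r + 3) ∨ (0 < t ∧ t < L + 1 ∧
        2 ≤ (g t + g (t + 1)) o ∧ (g t + g (t + 1)) o ≤ 2 * r + 2 ∧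
        ∀ c, (g t + g (t + 1)) c = (w (t - 1) + w (t - 1 + 1)) c + 2) := fun t ht => by
      by_cases a : t = 0
      · simp [g, a, z]
      by_cases b : t = L + 1
      · simp [g, b, e]; ring_nf
      have c1 : ∀ c, g t c = w (t - 1) c + 1 := fun c => by simp [g, a, ht.ne]
      have c2 : ∀ c, g (t + 1) c = w (t - 1 + 1) c + 1 := fun c => by
        simp [g, b, Nat.sub_add_cancel (Nat.pos_of_ne_zero a)]
      have := h.bd (t - 1) (by omega) o
      have := h.bd (t - 1 + 1) (by omega) o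
      refine .inr (.inr ⟨by omega, by omega, ?_, ?_, fun c => ?_⟩) <;>
        simp only [Pi.add_apply, c1, c2] <;> omega
    have := congrFun e' o
    rcases q t ht with a | a | ⟨a1, a2, a3, a4, a⟩ <;>
      rcases q u hu with b | b | ⟨b1, b2, b3, b4, b⟩
    any_goals omega
    have := h.ic (t - 1) (by omega) (u - 1) (by omega) (funext fun c => by
      have := congrFun e' c; have := a c; have := b c; omega)
    omega
  · rcases d t b.le with a | a | ⟨-, -, a⟩
    any_goals omega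
    have := a c; push_cast; omega

end Pool.Agent.H.MP_bf2d93_gt
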