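import Pool.Agent.H.MP_bf2d93_gt.B

set_option autoImplicit false
set_option maxHeartbeats 400000
set_option linter.unusedSectionVars false

namespace Pool.Agent.H.MP_bf2d93_gt

open Set

variable {k : ℕ}

structure Good (V : ℤ → Fin k → ℤ) : Prop where
  st : ∀ a c, V (a + 1) c = V a c + 1 ∨ V (a + 1) c = V a c - 1
  iv : ∀ a b, V a = V b → a = b
  ic : ∀ a b, V a + V (a + 1) = V b + V (b + 1) → a = b

def Ex (L r : ℕ) (g : ℕ → Fin k → ℤ) (V : ℤ → Fin k → ℤ) (n : ℤ) (c : Fin k) : ℤ :=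
  r * V (n / L) c + (V (n / L + 1) c - V (n / L) c) * g (n % L).toNat c

lemma dec {L : ℕ} (hL : 0 < L) (n : ℤ) : ∃ t < L, n = L * (n / L) + t :=
  ⟨(n % L).toNat, by have := Int.emod_lt_of_pos n (show (0 : ℤ) < L by omega); omega, by
    rw [Int.toNat_of_nonneg (Int.emod_nonneg _ (by omega)), Int.mul_ediv_add_emod]⟩

section
variable {L r : ℕ} {g : ℕ → Fin k → ℤ} (hg : Gen L r g) (hL : 0 < L) (hr : 0 < r)
  {V : ℤ → Fin k → ℤ}
include hg hL

lemma ex_eq (a : ℤ) {t : ℕ} (ht : t ≤ L) (c : Fin k) :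
    Ex L r g V (L * a + t) c = r * V a c + (V (a + 1) c - V a c) * g t c := by
  have L0 : (0 : ℤ) < L := by omega
  rcases ht.eq_or_lt with rfl | ht
  · obtain ⟨a1, a2⟩ := (Int.ediv_emod_unique (a := t * a + t) (r := 0) (q := a + 1) L0).2
      ⟨by ring, le_rfl, L0⟩
    simp only [Ex, a1, a2, Int.toNat_zero, hg.z, hg.e]
    ring
  · obtain ⟨a1, a2⟩ := (Int.ediv_emod_unique (a := L * a + t) (r := t) (q := a) L0).2
      ⟨by ring, by omega, by omega⟩
    simp only [Ex, a1, a2, Int.toNat_natCast]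

variable (hV : Good V)
include hV

lemma ex_cl (a : ℤ) {t : ℕ} (ht : t ≤ L) (c : Fin k) :
    |2 * Ex L r g V (L * a + t) c - r * (V a c + V (a + 1) c)| ≤ r := by
  have := hg.bd t ht c
  rw [ex_eq hg hL a ht, abs_le]
  rcases hV.st a c with e | e <;> rw [e] <;> constructor <;> nlinarith

lemma ex_op (a : ℤ) {t : ℕ} (t0 : 0 < t) (ht : t < L) (c : Fin k) :
    |2 * Ex L r g V (L * a + t) c - r * (V a c + V (a + 1) c)| ≤ r - 2 := by
  have := hg.int t t0 ht c
  rw [ex_eq hg hL a ht.le, abs_le]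
  rcases hV.st a c with e | e <;> rw [e] <;> constructor <;> nlinarith

lemma ex_st (n : ℤ) (c : Fin k) : Ex L r g V (n + 1) c = Ex L r g V n c + 1 ∨
    Ex L r g V (n + 1) c = Ex L r g V n c - 1 := by
  obtain ⟨t, ht, e⟩ := dec hL n
  have a := ex_eq (V := V) hg hL (n / L) (t := t + 1) ht c
  have b := ex_eq (V := V) hg hL (n / L) ht.le c
  rw [Nat.cast_succ, ← add_assoc, ← e] at a
  rw [← e] at b
  rw [a, b]
  rcases hV.st (n / L) c with e | e <;> rcases hg.st t ht c with f | f <;> rw [e, f]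
  exacts [.inl (by ring), .inr (by ring), .inr (by ring), .inl (by ring)]

lemma ex_mid (n : ℤ) (c : Fin k) : |Ex L r g V n c + Ex L r g V (n + 1) c -
    r * (V (n / L) c + V (n / L + 1) c)| ≤ r - 1 := by
  obtain ⟨t, ht, e⟩ := dec hL n
  have a := abs_le.1 (ex_cl hg hL hV (n / L) (t := t + 1) ht c)
  have b := abs_le.1 (ex_cl hg hL hV (n / L) ht.le c)
  rw [Nat.cast_succ, ← add_assoc, ← e] at a
  rw [← e] at b
  rw [abs_le]
  rcases ex_st hg hL hV n c with f | f <;> constructor <;> linarith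

omit hg hL in
lemma cell {a b : ℤ} {P : ℤ} (P0 : 0 < P)
    (h : ∀ c, |P * (V a c + V (a + 1) c) - P * (V b c + V (b + 1) c)| < 2 * P) : a = b := by
  refine hV.ic a b (funext fun c => ?_)
  have := h c
  rw [← mul_sub, abs_mul, abs_of_pos P0, mul_comm, mul_lt_mul_iff_left₀ P0, abs_lt] at this
  have := hV.st a c
  have := hV.st b c
  simp only [Pi.add_apply]
  omega

include hr in
lemma ex_good : Good (Ex L r g V) := by
  have r0 : (0 : ℤ) < r := by omega
  have cn : ∀ (a : ℤ) (c : Fin k) {x y : ℤ}, (V (a + 1) c - V a c) * x = (V (a + 1) c - V a c) * y →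
      x = y := fun a c x y h => mul_left_cancel₀ (by have := hV.st a c; omega) h
  refine ⟨ex_st hg hL hV, fun n m h => ?_, fun n m h => ?_⟩
  · obtain ⟨t, ht, e⟩ := dec hL n
    obtain ⟨u, hu, f⟩ := dec hL m
    generalize n / L = a at e
    generalize m / L = b at f
    subst e f
    have : a = b := by
      rcases Nat.eq_zero_or_pos t with rfl | t0
      · rcases Nat.eq_zero_or_pos u with rfl | u0
        · refine hV.iv a b (funext fun c => mul_left_cancel₀ r0.ne' ?_)
          simpa only [ex_eq hg hL _ ht.le, hg.z, mul_zero, add_zero] using congrFun h c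
        · refine cell hV r0 fun c => ?_
          have p := abs_le.1 (ex_cl hg hL hV a ht.le c)
          have q := abs_le.1 (ex_op hg hL hV b u0 hu c)
          rw [h] at p
          rw [abs_lt]; constructor <;> linarith
      · refine cell hV r0 fun c => ?_
        have p := abs_le.1 (ex_op hg hL hV a t0 ht c)
        have q := abs_le.1 (ex_cl hg hL hV b hu.le c)
        rw [h] at p
        rw [abs_lt]; constructor <;> linarith
    subst this
    rw [hg.iv t ht.le u hu.le (funext fun c => cn a c (by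
      have := congrFun h c
      rw [ex_eq hg hL _ ht.le, ex_eq hg hL _ hu.le] at this
      linarith))]
  · have : n / L = m / L := cell hV r0 fun c => by
      have p := abs_le.1 (ex_mid hg hL hV n c)
      have q := abs_le.1 (ex_mid hg hL hV m c)
      have := congrFun h c
      simp only [Pi.add_apply] at this
      rw [abs_lt]; constructor <;> linarith
    obtain ⟨t, ht, e⟩ := dec hL n
    obtain ⟨u, hu, f⟩ := dec hL m
    rw [this] at e
    generalize m / L = a at e f
    subst e f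
    rw [hg.ic t ht u hu (funext fun c => cn a c (by
      have := congrFun h c
      simp only [Pi.add_apply, add_assoc, ← Nat.cast_succ] at this ⊢
      rw [ex_eq hg hL _ ht.le, ex_eq hg hL _ hu.le, ex_eq hg hL _ (t := t.succ) ht,
        ex_eq hg hL _ (t := u.succ) hu] at this
      linarith))]

end

section
variable (L : ℕ) (r : ℕ → ℕ) (g : ℕ → ℕ → Fin k → ℤ)

def TT : ℕ → (ℤ → Fin k → ℤ) → ℤ → Fin k → ℤ
  | 0, V => V
  | j + 1, V => TT j (Ex L (r j) (g j) V)

def XX : ℕ → ℕ → ℤ → Fin k → ℤ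
  | 0, _ => fun n _ => n
  | d + 1, i => Ex L (r i) (g i) (XX d (i + 1))

def PP (j : ℕ) : ℤ := ∏ i ∈ Finset.range j, (r i : ℤ)

lemma XT (j d : ℕ) : XX L r g (d + j) 0 = TT L r g j (XX L r g d j) := by
  induction j generalizing d with
  | zero => rfl
  | succ j ih => rw [← add_assoc, add_right_comm, ih]; rfl

variable {L r g} (hk : 1 ≤ k) (hg : ∀ i, Gen L (r i) (g i)) (hL : 2 ≤ L) (hr : ∀ i, 3 ≤ r i)
include hr

lemma PP_pos (j : ℕ) : 0 < PP r j := Finset.prod_pos fun i _ => by have := hr i; omega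

omit hr in
lemma PP_succ (j : ℕ) : PP r (j + 1) = PP r j * r j := Finset.prod_range_succ _ _

include hg hL

include hk in
lemma X_good (d i : ℕ) : Good (XX L r g d i) := by
  induction d generalizing i with
  | zero => exact ⟨fun _ _ => .inl rfl, fun a b h => congrFun h ⟨0, hk⟩, fun a b h => by
      have := congrFun h ⟨0, hk⟩; simp [XX] at this; omega⟩
  | succ d ih => exact ex_good (hg i) (by omega) (by have := hr i; omega) (ih _)

lemma X_stab (d i : ℕ) (n : ℤ) (hn : |n| ≤ L ^ d) : XX L r g (d + 1) i n = XX L r g d i n := by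
  induction d generalizing i n with
  | zero =>
    funext c
    have e := fun a t ht => ex_eq (V := XX L r g 0 (i + 1)) (hg i) (by omega) a (t := t) ht c
    have a1 := e 0 0 (by omega)
    have a2 := e 0 1 (by omega)
    have a3 := e (-1) (L - 1) (by omega)
    have b1 := (hg i).st 0 (by omega) c
    have b2 := (hg i).int 1 (by omega) (by omega) c
    have b3 := (hg i).st (L - 1) (by omega) c
    have b4 := (hg i).int (L - 1) (by omega) (by omega) c
    rw [Nat.sub_add_cancel (by omega), (hg i).e] at b3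
    rw [show (L : ℤ) * -1 + (L - 1 : ℕ) = -1 by omega] at a3
    simp only [XX, (hg i).z, mul_zero, zero_add, Nat.cast_zero, Nat.cast_one, add_zero, sub_zero,
      one_mul, pow_zero, abs_le] at a1 a2 a3 b1 hn ⊢
    obtain rfl | rfl | rfl : n = -1 ∨ n = 0 ∨ n = 1 := by omega
    · rw [a3]; omega
    · exact a1
    · rw [a2]; omega
  | succ d ih =>
    have L0 : (0 : ℤ) < L := by omega
    rw [abs_le, pow_succ] at hn
    have a1 : -(L : ℤ) ^ d ≤ n / L := (Int.le_ediv_iff_mul_le L0).2 (by linarith)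
    have a2 : n / L ≤ (L : ℤ) ^ d := Int.ediv_le_of_le_mul L0 hn.2
    funext c
    change Ex L (r i) (g i) (XX L r g (d + 1) (i + 1)) n c = Ex L (r i) (g i) (XX L r g d (i + 1)) n c
    unfold Ex
    rw [ih (i + 1) _ (abs_le.2 ⟨a1, a2⟩)]
    rcases a2.eq_or_lt with a2 | a2
    · have : n % L = 0 := by
        have := Int.mul_ediv_add_emod n L
        have := Int.emod_nonneg n L0.ne'
        rw [a2] at *
        nlinarith
      simp [this, (hg i).z]
    · rw [ih (i + 1) _ (abs_le.2 ⟨by omega, a2⟩)]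

lemma X_lim (n : ℤ) (d : ℕ) (hd : n.natAbs ≤ d) : XX L r g d 0 n = XX L r g n.natAbs 0 n := by
  induction d, hd using Nat.le_induction with
  | base => rfl
  | succ d hd ih =>
    rw [← ih, X_stab hg hL hr]
    have := Nat.lt_pow_self (show 1 < L by omega) (n := d)
    rw [Int.abs_eq_natAbs]
    exact_mod_cast hd.trans this.le

omit hg hr in
lemma div_succ (n : ℤ) (j : ℕ) : n / L ^ (j + 1) = n / L ^ j / L := by
  rw [pow_succ, Int.ediv_ediv_of_nonneg (by positivity)]

lemma T_cell (j : ℕ) {V : ℤ → Fin k → ℤ} (hV : Good V) (n : ℤ) (c : Fin k) :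
    |2 * TT L r g j V n c - PP r j * (V (n / L ^ j) c + V (n / L ^ j + 1) c)| ≤ PP r j := by
  induction j generalizing V with
  | zero =>
    have := hV.st n c
    simp only [TT, PP, Finset.range_zero, Finset.prod_empty, pow_zero, Int.ediv_one, abs_le]
    omega
  | succ j ih =>
    have a := abs_le.1 (ih (ex_good (hg j) (by omega) (by have := hr j; omega) hV))
    have b := abs_le.1 (ex_mid (hg j) (by omega) hV (n / L ^ j) c)
    have := PP_pos hr j
    rw [PP_succ, div_succ hL, TT, abs_le]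
    constructor <;> nlinarith

lemma T_deep (j : ℕ) {V : ℤ → Fin k → ℤ} (hV : Good V) (n : ℤ) :
    (∀ c, |2 * TT L r g (j + 1) V n c - PP r (j + 1) * (V (n / L ^ (j + 1)) c +
      V (n / L ^ (j + 1) + 1) c)| ≤ PP r (j + 1) - 2 * PP r j) ∨
    ∃ a, (a = n / L ^ (j + 1) ∨ a = n / L ^ (j + 1) + 1) ∧
      ∀ c, |TT L r g (j + 1) V n c - PP r (j + 1) * V a c| ≤ PP r j := by
  have G := ex_good (hg j) (by omega) (by have := hr j; omega) hV
  have a := fun c => abs_le.1 (T_cell hg hL hr j G n c)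
  have P := PP_pos hr j
  obtain ⟨t, ht, e⟩ := dec (L := L) (by omega) (n / L ^ j)
  rw [PP_succ, div_succ hL, TT]
  have s := G.st (n / L ^ j)
  rcases Nat.eq_zero_or_pos t with rfl | t0
  · refine .inr ⟨_, .inl rfl, fun c => ?_⟩
    have b := ex_eq (V := V) (hg j) (by omega) (n / L ^ j / L) ht.le c
    rw [← e, (hg j).z, mul_zero, add_zero] at b
    have := a c
    rw [abs_le, mul_assoc, ← b]
    rcases s c with s | s <;> rw [s] at this <;> constructor <;> nlinarith
  rcases (Nat.succ_le_of_lt ht).eq_or_lt with t1 | t1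
  · refine .inr ⟨_, .inr rfl, fun c => ?_⟩
    have b := ex_eq (V := V) (hg j) (by omega) (n / L ^ j / L) (t := t + 1) ht c
    rw [Nat.cast_succ, ← add_assoc, ← e, show t + 1 = L from t1, (hg j).e] at b
    have := a c
    have b' : (r j : ℤ) * V (n / L ^ j / L + 1) c = Ex L (r j) (g j) V (n / L ^ j + 1) c := by
      rw [b]; ring
    rw [abs_le, mul_assoc, b']
    rcases s c with s | s <;> rw [s] at this ⊢ <;> constructor <;> nlinarith
  · refine .inl fun c => ?_
    have b := abs_le.1 (ex_op (hg j) (by omega) hV (n / L ^ j / L) t0 ht c)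
    have b' := abs_le.1 (ex_op (hg j) (by omega) hV (n / L ^ j / L) (t := t + 1) (by omega) t1 c)
    rw [Nat.cast_succ, ← add_assoc, ← e] at b'
    rw [← e] at b
    have := a c
    rw [abs_le]
    rcases s c with s | s <;> rw [s] at this b' <;> constructor <;> nlinarith

lemma T_sep (j : ℕ) {V : ℤ → Fin k → ℤ} (hV : Good V) {n m : ℤ} (h : n + 2 * L ^ (j + 1) ≤ m) :
    ∃ c, PP r j ≤ |TT L r g (j + 1) V n c - TT L r g (j + 1) V m c| := by
  have Q : (0 : ℤ) < L ^ (j + 1) := by positivity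
  have h2 : n / L ^ (j + 1) + 2 ≤ m / L ^ (j + 1) := by
    rw [← Int.add_mul_ediv_right _ _ Q.ne']
    exact Int.ediv_le_ediv Q h
  have P := PP_pos hr (j + 1)
  by_contra! H
  have ne : n / L ^ (j + 1) ≠ m / L ^ (j + 1) := by omega
  rcases T_deep hg hL hr j hV n with a | ⟨a, a1, a2⟩
  · refine ne (cell hV P fun c => ?_)
    have := abs_le.1 (a c)
    have := abs_le.1 (T_cell hg hL hr (j + 1) hV m c)
    have := abs_lt.1 (H c)
    rw [abs_lt]; constructor <;> linarith
  rcases T_deep hg hL hr j hV m with b | ⟨b, b1, b2⟩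
  · refine ne (cell hV P fun c => ?_)
    have := abs_le.1 (b c)
    have := abs_le.1 (T_cell hg hL hr (j + 1) hV n c)
    have := abs_lt.1 (H c)
    rw [abs_lt]; constructor <;> linarith
  refine (by omega : a ≠ b) (hV.iv a b (funext fun c => ?_))
  have := abs_le.1 (a2 c)
  have := abs_le.1 (b2 c)
  have := abs_lt.1 (H c)
  have e := PP_succ (r := r) j
  have r3 : (3 : ℤ) ≤ r j := by exact_mod_cast hr j
  have := mul_le_mul_of_nonneg_left r3 (PP_pos hr j).le
  by_contra c'
  rcases lt_or_gt_of_ne c' with d | d <;> nlinarith [Int.add_one_le_of_lt d]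

lemma T_up (j : ℕ) {V : ℤ → Fin k → ℤ} (hV : Good V) {n m : ℤ} (h0 : n ≤ m) (h : m ≤ n + L ^ j)
    (c : Fin k) : |TT L r g j V n c - TT L r g j V m c| ≤ 2 * PP r j := by
  have Q : (0 : ℤ) < L ^ j := by positivity
  have h1 := Int.ediv_le_ediv Q h0
  have h2 : m / L ^ j ≤ n / L ^ j + 1 := by
    rw [← Int.add_mul_ediv_right _ _ Q.ne', one_mul]
    exact Int.ediv_le_ediv Q h
  have a := abs_le.1 (T_cell hg hL hr j hV n c)
  have b := abs_le.1 (T_cell hg hL hr j hV m c)
  have P := PP_pos hr j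
  rw [abs_le]
  obtain e | e : m / L ^ j = n / L ^ j ∨ m / L ^ j = n / L ^ j + 1 := by omega
  · rw [e] at b; constructor <;> linarith
  · rw [e] at b
    rcases hV.st (n / L ^ j) c with s | s <;> rcases hV.st (n / L ^ j + 1) c with s' | s' <;>
      rw [s', s] at b <;> rw [s] at a <;> constructor <;> linarith

include hk in
lemma curve : ∃ p : ℤ → Fin k → ℤ, ∀ (j : ℕ) (n m : ℤ), n ≤ m →
    (n + 2 * L ^ (j + 1) ≤ m → ∃ c, PP r j ≤ |p n c - p m c|) ∧
    (m ≤ n + L ^ j → ∀ c, |p n c - p m c| ≤ 2 * PP r j) := by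
  refine ⟨fun n => XX L r g n.natAbs 0 n, fun j n m h => ?_⟩
  constructor <;> intro h'
  · simp only [← X_lim hg hL hr n (n.natAbs + m.natAbs + (j + 1)) (by omega),
      ← X_lim hg hL hr m (n.natAbs + m.natAbs + (j + 1)) (by omega), XT]
    exact T_sep hg hL hr j (X_good hk hg hL hr _ _) h'
  · simp only [← X_lim hg hL hr n (n.natAbs + m.natAbs + j) (by omega),
      ← X_lim hg hL hr m (n.natAbs + m.natAbs + j) (by omega), XT]
    exact T_up hg hL hr j (X_good hk hg hL hr _ _) h h'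

end

lemma track {φ : ℕ → ℝ} {ρ L : ℕ} {c C : ℝ} (φ0 : ∀ j, 0 < φ j) (c0 : 0 < c) (ρ1 : 1 ≤ ρ)
    (ρL : ρ ≤ L) (h : ∀ i j, c * ρ ^ j * φ i ≤ φ (i + j) ∧ φ (i + j) ≤ C * L ^ j * φ i) :
    ∃ r : ℕ → ℕ, (∀ j, r j = ρ ∨ r j = L) ∧ ∃ a b : ℝ, 0 < a ∧ 0 < b ∧
      ∀ j, a * φ j ≤ PP r j ∧ PP r j ≤ b * φ j := by
  obtain ⟨P, P0, Ps⟩ : ∃ P : ℕ → ℕ, P 0 = 1 ∧
      ∀ j, P (j + 1) = P j * if (P j : ℝ) ≤ φ j then L else ρ :=
    ⟨fun j => Nat.rec 1 (fun j (p : ℕ) => p * if (p : ℝ) ≤ φ j then L else ρ) j, rfl, fun _ => rfl⟩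
  let r : ℕ → ℕ := fun j => if (P j : ℝ) ≤ φ j then L else ρ
  have s : ∀ j, (P (j + 1) : ℝ) = P j * r j := fun j => by rw [Ps]; exact Nat.cast_mul (P j) (r j)
  have e : ∀ j, (PP r j : ℝ) = P j := fun j => by
    induction j with
    | zero => simp [PP, P0]
    | succ j ih => rw [PP_succ, s, ← ih]; push_cast; rfl
  have ρ1' : (1 : ℝ) ≤ ρ := by exact_mod_cast ρ1
  have L1 : (1 : ℝ) ≤ L := by exact_mod_cast ρ1.trans ρL
  have C0 : 0 < C := by have := (h 0 0).2; have := φ0 0; simp at *; nlinarith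
  have p0 := φ0 0
  set K : ℝ := L + φ 0 + 1 / φ 0 with hK
  have K1 : (L : ℝ) ≤ K := by rw [hK, add_assoc]; exact le_add_of_nonneg_right (by positivity)
  have K0 : 0 < K := by linarith
  have u : ∀ j, ∃ i d, j = i + d ∧ (P j : ℝ) ≤ K * ρ ^ d * φ i := fun j => by
    induction j with
    | zero =>
      refine ⟨0, 0, rfl, ?_⟩
      have : 1 / φ 0 * φ 0 = 1 := by field_simp
      simp only [P0, Nat.cast_one, pow_zero, mul_one, hK]
      nlinarith
    | succ j ih =>
      rw [s]
      by_cases q : (P j : ℝ) ≤ φ j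
      · refine ⟨j, 1, rfl, ?_⟩
        simp only [r, if_pos q, pow_one]
        have := φ0 j
        nlinarith [mul_le_mul_of_nonneg_left ρ1' (mul_pos K0 this).le]
      · obtain ⟨i, d, a, b⟩ := ih
        refine ⟨i, d + 1, by omega, ?_⟩
        simp only [r, if_neg q, pow_succ]
        nlinarith
  have l : ∀ j, ∃ i d : ℕ, j = i + d ∧ (L : ℝ) ^ d * φ i ≤ K * (P j : ℝ) := fun j => by
    induction j with
    | zero =>
      refine ⟨0, 0, rfl, ?_⟩
      have : 0 < 1 / φ 0 := by positivity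
      simp only [P0, Nat.cast_one, pow_zero, mul_one, one_mul, hK]
      linarith
    | succ j ih =>
      rw [s]
      by_cases q : (P j : ℝ) ≤ φ j
      · obtain ⟨i, d, a, b⟩ := ih
        refine ⟨i, d + 1, by omega, ?_⟩
        simp only [r, if_pos q, pow_succ]
        nlinarith
      · refine ⟨j, 1, rfl, ?_⟩
        simp only [r, if_neg q, pow_one]
        have := φ0 j
        have q' := not_le.1 q
        nlinarith [mul_le_mul_of_nonneg_left ρ1' (mul_pos K0 (this.trans q')).le]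
  refine ⟨r, fun j => by simp only [r]; split_ifs <;> simp, 1 / (C * K), K / c, by positivity,
    by positivity, fun j => ?_⟩
  obtain ⟨i, d, rfl, a⟩ := u j
  obtain ⟨i', d', b1, b⟩ := l (i + d)
  rw [e, div_mul_eq_mul_div, div_mul_eq_mul_div, div_le_iff₀ (by positivity), le_div_iff₀ c0]
  have := (h i' d').2
  rw [← b1] at this
  constructor <;> nlinarith [(h i d).1]

end Pool.Agent.H.MP_bf2d93_gt
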